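import Pool.Agent.H931.RC.Final

/-!
# The rigid curves conjecture is false

`RigidCurvesConjecture`, defined in `Pool/Agent/H931/RC/Defs.lean`, says that for every `r ≥ 0` there is
a real number `C > 0` such that for all `g ≥ 2` and `d` with `g - d + r ≥ 2` every irreducible component
of the moduli space `𝒲^r_{d,g}` has dimension at least `C g`.

It fails for `r = 3`. For `t ≥ 4` let `2 d = t (t + 1)` and `6 (g - 1) = t (t + 1) (2 t - 5)`. Then
`𝒲^3_{d,g}` has an irreducible component of dimension at most `2 t (t + 1) = 4 d`, see
`Pool.Agent.H931.RC.main`. The component contains the pairs `(C, 𝒪_C(1))` for the space curves `C`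
defined by the maximal minors of a `t × (t + 1)` matrix of linear forms.
-/

set_option autoImplicit false

namespace Pool.Agent.Results.MP_d0789b_ag.Disproof

/-- The rigid curves conjecture is false. -/
theorem result : ¬ Pool.Agent.H931.RC.RigidCurvesConjecture :=
  Pool.Agent.H931.RC.not_rigidCurvesConjecture

end Pool.Agent.Results.MP_d0789b_ag.Disproof
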